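import Mathlib

set_option autoImplicit false

/-!
# Fair sequences of panels: every panel and the union satisfy `2`-PRF

*Groups.* Repeatedly choose a ball of the least possible radius that still holds a mass of at
least `n / k` and scale the mass on it down to exactly `n / k`. This gives a fractional partition of
the population in `k` groups of mass `n / k` such that every `S` of size at least `q n / k` is near
to `q` of the groups: all the members of those groups are within `2 · diam S` of a point of `S`.

*Birkhoff.* Take such a partition for each panel size `k_i` and one for `K = ∑ k_i`. They are the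
blocks of one doubly stochastic matrix, with index set (positions in the panels) ⊕ (people): the
rows of the positions are the groups of the panels, the columns of the positions are the groups of
the partition for `K`, and the people have the number `1 - K / n` on the diagonal. A permutation
matrix in its support is a sequence of disjoint panels, with one member in each group of each
panel and one member of the union in each group of the partition for `K`.
-/

namespace Pool.Agent.Results.MP_d2b090_co.BirkhoffPanels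

open Finset

open scoped Classical in
/-- `β`-PRF for the population `V` (located in `X` by `loc`) and the panel size `k`: for all `q ≥ 1`
and all `S ⊆ V` with `|S| ≥ q n / k`, at least `q` members of `P` lie in the union of the balls
`B(v, β · r(S))`, `v ∈ S`, where `r(S)` is the diameter of `S`. -/
def PRF {V X : Type*} [Fintype V] [MetricSpace X] (loc : V → X) (β : ℝ) (k : ℕ)
    (P : Finset V) : Prop :=
  ∀ q : ℕ, 1 ≤ q → ∀ S : Finset V, (q : ℝ) * (Fintype.card V : ℝ) / (k : ℝ) ≤ (S.card : ℝ) →
    q ≤ (P.filter fun u => ∃ v ∈ S,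
      dist (loc u) (loc v) ≤ β * Metric.diam (loc '' (S : Set V))).card

/-- All the points with positive mass are within `2 · diam S` of `S`. -/
def Near {V X : Type*} [MetricSpace X] (loc : V → X) (S : Finset V) (f : V → ℝ) : Prop :=
  ∀ u, 0 < f u → ∃ v ∈ S, dist (loc u) (loc v) ≤ 2 * Metric.diam (loc '' (S : Set V))

lemma pos_of_mul_pos_right' {x y : ℝ} (h : 0 < x * y) (hx : 0 ≤ x) : 0 < y := by
  by_contra hy
  push Not at hy
  exact absurd h (not_lt.2 (mul_nonpos_of_nonneg_of_nonpos hx hy))

open scoped Classical in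
lemma groups {V X : Type*} [Fintype V] [MetricSpace X] (loc : V → X) {τ : ℝ} (hτ : 0 < τ) :
    ∀ (j : ℕ) (m : V → ℝ), (∀ v, 0 ≤ m v) → ∑ v, m v = j * τ →
    ∃ a : Fin j → V → ℝ, (∀ g v, 0 ≤ a g v) ∧ (∀ g, ∑ v, a g v = τ) ∧ (∀ v, ∑ g, a g v = m v) ∧
      ∀ (S : Finset V) (q : ℕ), q * τ ≤ ∑ v ∈ S, m v →
        q ≤ (univ.filter fun g => Near loc S (a g)).card := by
  intro j
  induction j with
  | zero =>
    intro m hm hsum
    have hz : ∀ v, m v = 0 := by
      have : ∑ v, m v = 0 := by simpa using hsum
      intro v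
      exact (Finset.sum_eq_zero_iff_of_nonneg (fun v _ => hm v)).1 this v (mem_univ v)
    refine ⟨fun g => g.elim0, fun g => g.elim0, fun g => g.elim0, fun v => by simp [hz v], ?_⟩
    intro S q hq
    simp only [hz, sum_const_zero] at hq
    have : (q : ℝ) ≤ 0 := by
      by_contra h
      push Not at h
      nlinarith
    have : q = 0 := by exact_mod_cast le_antisymm this (by positivity)
    simp [this]
  | succ j ih =>
    intro m hm hsum
    have hne : Nonempty V := by
      by_contra h
      rw [not_nonempty_iff] at h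
      rw [Finset.univ_eq_empty, Finset.sum_empty] at hsum
      push_cast at hsum
      have : (0 : ℝ) < (j + 1) * τ := by positivity
      linarith
    -- the admissible pairs
    set T : Finset (V × V) := univ.filter fun p : V × V =>
      τ ≤ ∑ v with dist (loc p.1) (loc v) ≤ dist (loc p.1) (loc p.2), m v with hTdef
    have hTne : T.Nonempty := by
      obtain ⟨x⟩ := hne
      obtain ⟨y, -, hy⟩ := Finset.exists_max_image univ (fun y => dist (loc x) (loc y))
        ⟨x, mem_univ x⟩
      refine ⟨(x, y), ?_⟩
      rw [hTdef, mem_filter]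
      refine ⟨mem_univ _, ?_⟩
      have : (univ.filter fun v => dist (loc x) (loc v) ≤ dist (loc x) (loc y)) = univ :=
        Finset.filter_true_of_mem (fun v hv => hy v hv)
      simp only [this, hsum]
      push_cast
      nlinarith [(Nat.cast_nonneg j : (0 : ℝ) ≤ j)]
    obtain ⟨p, hp, hmin⟩ := Finset.exists_min_image T (fun p => dist (loc p.1) (loc p.2)) hTne
    rw [hTdef, mem_filter] at hp
    set x := p.1 with hx
    set ρ := dist (loc p.1) (loc p.2) with hρ
    set B : Finset V := univ.filter fun v => dist (loc x) (loc v) ≤ ρ with hB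
    set MB : ℝ := ∑ v ∈ B, m v with hMB
    have hMBτ : τ ≤ MB := hp.2
    have hMB0 : 0 < MB := lt_of_lt_of_le hτ hMBτ
    set b : V → ℝ := fun v => if v ∈ B then m v * (τ / MB) else 0 with hb
    have hr1 : τ / MB ≤ 1 := (div_le_one hMB0).2 hMBτ
    have hr0 : 0 ≤ τ / MB := by positivity
    have hb0 : ∀ v, 0 ≤ b v := by
      intro v
      simp only [hb]
      split_ifs
      · exact mul_nonneg (hm v) hr0
      · exact le_rfl
    have hbm : ∀ v, b v ≤ m v := by
      intro v
      simp only [hb]
      split_ifs
      · exact mul_le_of_le_one_right (hm v) hr1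
      · exact hm v
    have hbsum : ∑ v, b v = τ := by
      simp only [hb]
      rw [← Finset.sum_filter]
      have : (univ.filter fun v => v ∈ B) = B := by ext v; simp
      rw [this, ← Finset.sum_mul, ← hMB]
      field_simp
    obtain ⟨a', h0, hs, hv, hnear⟩ := ih (fun v => m v - b v) (fun v => by linarith [hbm v]) (by
      rw [Finset.sum_sub_distrib, hsum, hbsum]
      push_cast
      ring)
    refine ⟨Fin.cons b a', ?_, ?_, ?_, ?_⟩
    · intro g
      refine Fin.cases ?_ ?_ g
      · intro v; simpa using hb0 v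
      · intro g v; simpa using h0 g v
    · intro g
      refine Fin.cases ?_ ?_ g
      · simpa using hbsum
      · intro g; simpa using hs g
    · intro v
      rw [Fin.sum_univ_succ]
      simp only [Fin.cons_zero, Fin.cons_succ, hv v]
      ring
    · intro S q hq
      rcases Nat.eq_zero_or_pos q with rfl | hqpos
      · exact Nat.zero_le _
      rw [Fin.card_filter_univ_succ]
      simp only [Fin.cons_zero, Fin.cons_succ]
      by_cases hmeet : ∃ v ∈ S, v ∈ B
      · obtain ⟨v0, hv0S, hv0B⟩ := hmeet
        have hnb : Near loc S b := by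
          -- the diameter of `S` is at least `ρ`
          obtain ⟨y, hyS, hy⟩ := Finset.exists_max_image S (fun y => dist (loc v0) (loc y))
            ⟨v0, hv0S⟩
          have hmem : (v0, y) ∈ T := by
            rw [hTdef, mem_filter]
            refine ⟨mem_univ _, ?_⟩
            have hsub : S ⊆ univ.filter fun v => dist (loc v0) (loc v) ≤ dist (loc v0) (loc y) :=
              fun v hv => mem_filter.2 ⟨mem_univ _, hy v hv⟩
            have h1 : (1 : ℝ) ≤ q := by exact_mod_cast hqpos
            calc τ ≤ q * τ := by nlinarith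
              _ ≤ ∑ v ∈ S, m v := hq
              _ ≤ _ := Finset.sum_le_sum_of_subset_of_nonneg hsub (fun v _ _ => hm v)
          have hρle : ρ ≤ dist (loc v0) (loc y) := hmin _ hmem
          have hdiam : dist (loc v0) (loc y) ≤ Metric.diam (loc '' (S : Set V)) :=
            Metric.dist_le_diam_of_mem (S.finite_toSet.image loc).isBounded
              ⟨v0, hv0S, rfl⟩ ⟨y, hyS, rfl⟩
          intro u hu
          have huB : u ∈ B := by
            by_contra h
            simp only [hb, h, if_false, lt_irrefl] at hu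
          refine ⟨v0, hv0S, ?_⟩
          rw [hB, mem_filter] at huB hv0B
          have h1 := huB.2
          have h2 := hv0B.2
          have h3 := dist_triangle_left (loc u) (loc v0) (loc x)
          linarith
        rw [if_pos hnb]
        obtain ⟨q', rfl⟩ : ∃ q', q = q' + 1 := ⟨q - 1, by omega⟩
        have := hnear S q' (by
          rw [Finset.sum_sub_distrib]
          have h1 : ∑ v ∈ S, b v ≤ τ := by
            rw [← hbsum]
            exact Finset.sum_le_sum_of_subset_of_nonneg (subset_univ _) (fun v _ _ => hb0 v)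
          push_cast at hq
          linarith)
        omega
      · have hbS : ∑ v ∈ S, b v = 0 := by
          refine Finset.sum_eq_zero fun v hv => ?_
          have : v ∉ B := fun h => hmeet ⟨v, hv, h⟩
          simp only [hb, this, if_false]
        have := hnear S q (by
          rw [Finset.sum_sub_distrib, hbS]
          linarith)
        split_ifs <;> omega

open scoped Classical in
lemma prf_of_reps {V X : Type*} [Fintype V] [MetricSpace X] (loc : V → X) {k : ℕ}
    (a : Fin k → V → ℝ)
    (hnear : ∀ (S : Finset V) (q : ℕ), q * ((Fintype.card V : ℝ) / (k : ℝ)) ≤ ∑ _v ∈ S, (1 : ℝ) →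
        q ≤ (univ.filter fun g => Near loc S (a g)).card)
    (f : Fin k → V) (hf : Function.Injective f) (hpos : ∀ g, 0 < a g (f g))
    (P : Finset V) (hP : ∀ g, f g ∈ P) : PRF loc 2 k P := by
  intro q _ S hS
  have h1 := hnear S q (by
    rw [Finset.sum_const, nsmul_eq_mul, mul_one]
    calc q * ((Fintype.card V : ℝ) / (k : ℝ)) = (q : ℝ) * (Fintype.card V : ℝ) / (k : ℝ) := by ring
      _ ≤ _ := hS)
  refine h1.trans ?_
  rw [← Finset.card_image_of_injective _ hf]
  refine Finset.card_le_card ?_
  intro u hu
  obtain ⟨g, hg, rfl⟩ := Finset.mem_image.1 hu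
  exact mem_filter.2 ⟨hP g, (mem_filter.1 hg).2 _ (hpos g)⟩

open scoped Classical in
/-- Q1 has a positive answer, with the constant `c = 2`. -/
theorem result {V X : Type*} [Fintype V] [MetricSpace X] (loc : V → X) (ℓ : ℕ) (hℓ : 1 ≤ ℓ)
    (k : Fin ℓ → ℕ) (hk : ∀ i, 1 ≤ k i) (hK : ∑ i, k i ≤ Fintype.card V) :
    ∃ 𝒜 : (Fin ℓ → Finset V) → ℝ,
      (∀ P, 0 ≤ 𝒜 P) ∧ ∑ P, 𝒜 P = 1 ∧
      (∀ v : V, (∑ P with ∃ i, v ∈ P i, 𝒜 P) = ((∑ i, k i : ℕ) : ℝ) / (Fintype.card V : ℝ)) ∧
      ∀ P, 0 < 𝒜 P →
        (∀ i, (P i).card = k i ∧ PRF loc 2 (k i) (P i)) ∧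
        PRF loc 2 (∑ i, k i) (univ.biUnion P) := by
  set n : ℕ := Fintype.card V with hn
  set K : ℕ := ∑ i, k i with hKdef
  have hK1 : 1 ≤ K := by
    have h0 : k ⟨0, hℓ⟩ ≤ K := Finset.single_le_sum (f := k) (fun i _ => Nat.zero_le _)
      (mem_univ _)
    exact (hk _).trans h0
  have hn1 : 1 ≤ n := hK1.trans hK
  have hnR : (0 : ℝ) < n := by exact_mod_cast hn1
  have hKR : (0 : ℝ) < K := by exact_mod_cast hK1
  have hkR : ∀ i, (0 : ℝ) < k i := fun i => by exact_mod_cast hk i
  -- the groups
  have hgr : ∀ i, ∃ a : Fin (k i) → V → ℝ, (∀ g v, 0 ≤ a g v) ∧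
      (∀ g, ∑ v, a g v = (n : ℝ) / k i) ∧ (∀ v, ∑ g, a g v = 1) ∧
      ∀ (S : Finset V) (q : ℕ), q * ((n : ℝ) / k i) ≤ ∑ _v ∈ S, (1 : ℝ) →
        q ≤ (univ.filter fun g => Near loc S (a g)).card := by
    intro i
    refine groups loc (τ := (n : ℝ) / k i) (div_pos hnR (hkR i)) (k i) (fun _ => 1)
      (fun _ => zero_le_one) ?_
    rw [Finset.sum_const, nsmul_eq_mul, mul_one, Finset.card_univ, ← hn]
    have := (hkR i).ne'
    field_simp
  choose a ha0 has hav hanear using hgr
  obtain ⟨b, hb0, hbs, hbv, hbnear⟩ := groups loc (τ := (n : ℝ) / K) (div_pos hnR hKR) K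
    (fun _ => 1) (fun _ => zero_le_one) (by
      rw [Finset.sum_const, nsmul_eq_mul, mul_one, Finset.card_univ, ← hn]
      field_simp)
  -- the positions
  let G := Σ i : Fin ℓ, Fin (k i)
  have hG : Fintype.card G = K := by
    rw [Fintype.card_sigma]
    simp [hKdef]
  let e : G ≃ Fin K := Fintype.equivFinOfCardEq hG
  let M : Matrix (G ⊕ V) (G ⊕ V) ℝ := Matrix.fromBlocks 0
    (Matrix.of fun c v => ((k c.1 : ℝ) / n) * a c.1 c.2 v)
    (Matrix.of fun v F => ((K : ℝ) / n) * b (e F) v)
    (Matrix.diagonal fun _ => 1 - (K : ℝ) / n)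
  have hKn : (K : ℝ) / n ≤ 1 := (div_le_one hnR).2 (by exact_mod_cast hK)
  have hM : M ∈ doublyStochastic ℝ (G ⊕ V) := by
    rw [mem_doublyStochastic_iff_sum]
    refine ⟨?_, ?_, ?_⟩
    · rintro (c | v) (F | u)
      · simp [M]
      · simp only [M, Matrix.fromBlocks_apply₁₂, Matrix.of_apply]
        exact mul_nonneg (by positivity) (ha0 _ _ _)
      · simp only [M, Matrix.fromBlocks_apply₂₁, Matrix.of_apply]
        exact mul_nonneg (by positivity) (hb0 _ _)
      · simp only [M, Matrix.fromBlocks_apply₂₂, Matrix.diagonal_apply]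
        split_ifs
        · linarith
        · exact le_rfl
    · rintro (c | v)
      · rw [Fintype.sum_sum_type]
        simp only [M, Matrix.fromBlocks_apply₁₁, Matrix.fromBlocks_apply₁₂, Matrix.of_apply,
          Matrix.zero_apply, Finset.sum_const_zero, zero_add]
        rw [← Finset.mul_sum, has]
        have := (hkR c.1).ne'
        field_simp
      · rw [Fintype.sum_sum_type]
        simp only [M, Matrix.fromBlocks_apply₂₁, Matrix.fromBlocks_apply₂₂, Matrix.of_apply,
          Matrix.diagonal_apply, Finset.sum_ite_eq, mem_univ, if_true]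
        rw [← Finset.mul_sum, e.sum_comp (fun F => b F v), hbv]
        ring
    · rintro (F | v)
      · rw [Fintype.sum_sum_type]
        simp only [M, Matrix.fromBlocks_apply₁₁, Matrix.fromBlocks_apply₂₁, Matrix.of_apply,
          Matrix.zero_apply, Finset.sum_const_zero, zero_add]
        rw [← Finset.mul_sum, hbs]
        field_simp
      · rw [Fintype.sum_sum_type]
        simp only [M, Matrix.fromBlocks_apply₁₂, Matrix.fromBlocks_apply₂₂, Matrix.of_apply,
          Matrix.diagonal_apply, Finset.sum_ite_eq', mem_univ, if_true]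
        rw [Fintype.sum_sigma]
        simp only
        have : ∀ i, ∑ g : Fin (k i), ((k i : ℝ) / n) * a i g v = (k i : ℝ) / n := by
          intro i
          rw [← Finset.mul_sum, hav, mul_one]
        rw [Finset.sum_congr rfl (fun i _ => this i), ← Finset.sum_div, hKdef]
        push_cast
        ring
  obtain ⟨w, hw0, hw1, hwM⟩ := exists_eq_sum_perm_of_mem_doublyStochastic hM
  have hent : ∀ x y, (∑ σ : Equiv.Perm (G ⊕ V), if σ x = y then w σ else 0) = M x y := by
    intro x y
    rw [← hwM, Matrix.sum_apply]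
    refine Finset.sum_congr rfl fun σ _ => ?_
    rw [Matrix.smul_apply, Equiv.Perm.permMatrix, PEquiv.toMatrix_apply, Equiv.toPEquiv_apply]
    simp only [Option.mem_def, Option.some.injEq, smul_eq_mul]
    split_ifs <;> simp
  have hposM : ∀ σ, 0 < w σ → ∀ x, 0 < M x (σ x) := by
    intro σ hσ x
    rw [← hent]
    refine lt_of_lt_of_le hσ ?_
    have := Finset.single_le_sum (f := fun σ' : Equiv.Perm (G ⊕ V) =>
      if σ' x = σ x then w σ' else 0) (s := univ) (fun σ' _ => by
        split_ifs
        · exact hw0 _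
        · exact le_rfl) (mem_univ σ)
    simpa using this
  have F1 : ∀ σ, 0 < w σ → ∀ c : G, ∃ v, σ (Sum.inl c) = Sum.inr v ∧ 0 < a c.1 c.2 v := by
    intro σ hσ c
    have h := hposM σ hσ (Sum.inl c)
    rcases hc : σ (Sum.inl c) with F | v
    · rw [hc] at h
      simp [M] at h
    · refine ⟨v, rfl, ?_⟩
      rw [hc] at h
      simp only [M, Matrix.fromBlocks_apply₁₂, Matrix.of_apply] at h
      exact pos_of_mul_pos_right' h (by positivity)
  have F2 : ∀ σ, 0 < w σ → ∀ F : G, ∃ v, σ (Sum.inr v) = Sum.inl F ∧ 0 < b (e F) v := by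
    intro σ hσ F
    have h := hposM σ hσ (σ.symm (Sum.inl F))
    rw [Equiv.apply_symm_apply] at h
    rcases hc : σ.symm (Sum.inl F) with c | v
    · rw [hc] at h
      simp [M] at h
    · refine ⟨v, by rw [← hc, Equiv.apply_symm_apply], ?_⟩
      rw [hc] at h
      simp only [M, Matrix.fromBlocks_apply₂₁, Matrix.of_apply] at h
      exact pos_of_mul_pos_right' h (by positivity)
  have F3 : ∀ σ, 0 < w σ → ∀ v, σ (Sum.inr v) ≠ Sum.inr v → ∃ c : G, σ (Sum.inl c) = Sum.inr v := by
    intro σ hσ v hv
    have h := hposM σ hσ (σ.symm (Sum.inr v))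
    rw [Equiv.apply_symm_apply] at h
    rcases hc : σ.symm (Sum.inr v) with c | u
    · exact ⟨c, by rw [← hc, Equiv.apply_symm_apply]⟩
    · rw [hc] at h
      simp only [M, Matrix.fromBlocks_apply₂₂, Matrix.diagonal_apply] at h
      have huv : u = v := by
        by_contra h'
        rw [if_neg h'] at h
        exact lt_irrefl _ h
      refine absurd ?_ hv
      rw [← huv, ← hc, Equiv.apply_symm_apply, hc, huv]
  -- the panels of a permutation
  let Pan : Equiv.Perm (G ⊕ V) → (Fin ℓ → Finset V) := fun σ i =>
    univ.filter fun v => ∃ g : Fin (k i), σ (Sum.inl ⟨i, g⟩) = Sum.inr v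
  have hunion : ∀ σ, 0 < w σ → ∀ v, (∃ i, v ∈ Pan σ i) ↔ σ (Sum.inr v) ≠ Sum.inr v := by
    intro σ hσ v
    constructor
    · rintro ⟨i, hi⟩ h
      obtain ⟨g, hg⟩ := (mem_filter.1 hi).2
      exact Sum.inl_ne_inr (σ.injective (hg.trans h.symm))
    · intro h
      obtain ⟨⟨i, g⟩, hc⟩ := F3 σ hσ v h
      exact ⟨i, mem_filter.2 ⟨mem_univ _, g, hc⟩⟩
  refine ⟨fun P => ∑ σ with Pan σ = P, w σ, fun P => Finset.sum_nonneg fun σ _ => hw0 σ, ?_, ?_, ?_⟩
  · rw [Finset.sum_fiberwise]
    exact hw1
  · intro v
    have h1 : (∑ P with ∃ i, v ∈ P i, ∑ σ with Pan σ = P, w σ) =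
        ∑ σ, if σ (Sum.inr v) = Sum.inr v then 0 else w σ := by
      rw [Finset.sum_filter]
      have h2 : ∀ P : Fin ℓ → Finset V, (if ∃ i, v ∈ P i then ∑ σ with Pan σ = P, w σ else 0) =
          ∑ σ, if Pan σ = P then (if ∃ i, v ∈ P i then w σ else 0) else 0 := by
        intro P
        split_ifs with hP
        · rw [Finset.sum_filter]
        · simp
      rw [Finset.sum_congr rfl (fun P _ => h2 P), Finset.sum_comm]
      refine Finset.sum_congr rfl fun σ _ => ?_
      rw [Finset.sum_ite_eq]
      simp only [mem_univ, if_true]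
      rcases (hw0 σ).eq_or_lt with h | h
      · simp [← h]
      · have := hunion σ h v
        by_cases hσv : σ (Sum.inr v) = Sum.inr v
        · rw [if_pos hσv, if_neg (fun h' => this.1 h' hσv)]
        · rw [if_neg hσv, if_pos (this.2 hσv)]
    rw [h1]
    have h3 : (∑ σ : Equiv.Perm (G ⊕ V), if σ (Sum.inr v) = Sum.inr v then 0 else w σ) =
        ∑ σ, w σ - ∑ σ : Equiv.Perm (G ⊕ V), if σ (Sum.inr v) = Sum.inr v then w σ else 0 := by
      rw [← Finset.sum_sub_distrib]
      refine Finset.sum_congr rfl fun σ _ => ?_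
      split_ifs <;> ring
    rw [h3, hw1, hent]
    simp only [M, Matrix.fromBlocks_apply₂₂, Matrix.diagonal_apply, if_true]
    ring
  · intro P hP
    obtain ⟨σ, hσ, hσw⟩ := Finset.exists_ne_zero_of_sum_ne_zero hP.ne'
    have hσ' : Pan σ = P := (mem_filter.1 hσ).2
    have hwpos : 0 < w σ := lt_of_le_of_ne (hw0 σ) (Ne.symm hσw)
    subst hσ'
    refine ⟨fun i => ?_, ?_⟩
    · choose f hf hfa using fun g : Fin (k i) => F1 σ hwpos ⟨i, g⟩
      have hfinj : Function.Injective f := by
        intro g g' hgg
        have h1 := σ.injective ((hf g).trans ((congrArg Sum.inr hgg).trans (hf g').symm))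
        have h2 : (⟨i, g⟩ : G) = ⟨i, g'⟩ := Sum.inl_injective h1
        exact eq_of_heq (Sigma.mk.inj_iff.1 h2).2
      have hPan : Pan σ i = univ.image f := by
        ext v
        simp only [Pan, mem_filter, mem_univ, true_and, mem_image]
        constructor
        · rintro ⟨g, hg⟩
          exact ⟨g, Sum.inr_injective ((hf g).symm.trans hg)⟩
        · rintro ⟨g, rfl⟩
          exact ⟨g, hf g⟩
      refine ⟨?_, ?_⟩
      · rw [hPan, Finset.card_image_of_injective _ hfinj, Finset.card_univ, Fintype.card_fin]
      · refine prf_of_reps loc (a i) (hanear i) f hfinj hfa _ fun g => ?_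
        rw [hPan]
        exact mem_image_of_mem _ (mem_univ _)
    · choose f hf hfb using fun F : Fin K => F2 σ hwpos (e.symm F)
      have hfinj : Function.Injective f := by
        intro g g' hgg
        have h1 : (Sum.inl (e.symm g) : G ⊕ V) = Sum.inl (e.symm g') := by
          rw [← hf g, ← hf g', hgg]
        exact e.symm.injective (Sum.inl_injective h1)
      refine prf_of_reps loc b hbnear f hfinj (fun F => by simpa using hfb F) _ fun F => ?_
      rw [mem_biUnion]
      have h1 : σ (Sum.inr (f F)) ≠ Sum.inr (f F) := by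
        rw [hf F]
        exact Sum.inl_ne_inr
      obtain ⟨i, hi⟩ := (hunion σ hwpos (f F)).2 h1
      exact ⟨i, mem_univ _, hi⟩

end Pool.Agent.Results.MP_d2b090_co.BirkhoffPanels
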